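import Pool.Agent.Helper63.XP.StB

/-! Project XP (MP_c973ff_an), module NLX: lower bound of the norm. -/

set_option autoImplicit false

namespace Pool.Agent.Helper64.XP

open Finset Filter Topology MeasureTheory
open scoped ENNReal
open Pool.Agent.Helper63.XP
open Pool.Agent.Helper49.KX (FS cmp tw un ev Cov MS LY Rep act nrm IsFp StEvm StAlg Bdd)

/-- the one point space -/
noncomputable def M1 : MS := ⟨Unit, ⊤, @Measure.dirac Unit ⊤ (), inferInstance⟩

/-- the constant function -/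
noncomputable def e1 (p : ℝ≥0∞) : LY p M1 :=
  (@Lp.const Unit ℂ ⊤ p (@Measure.dirac Unit ⊤ ()) _ _ (1 : ℂ))

theorem norm_e1 (p : ℝ≥0∞) [Fact (1 ≤ p)] (hp : p ≠ ∞) : ‖e1 p‖ = 1 := by
  have hp0 : p ≠ 0 := (lt_of_lt_of_le zero_lt_one (Fact.out : 1 ≤ p)).ne'
  have h := @Lp.norm_const' Unit ℂ ⊤ p (@Measure.dirac Unit ⊤ ()) _ _ (1 : ℂ) hp0 hp
  have h2 : ‖e1 p‖ = ‖(1 : ℂ)‖ * (@Measure.dirac Unit ⊤ ()).real Set.univ ^ (1 / p.toReal) := h
  rw [h2]
  simp

/-- the representation by evaluation at `x` -/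
noncomputable def rx (p : ℝ≥0∞) [Fact (1 ≤ p)] {X : Type} [TopologicalSpace X] [CompactSpace X] (x : X) :
    Rep p X where
  M := M1
  π f ξ := f x • ξ
  contr f :=
    { add := fun ξ η => smul_add _ _ _
      smul := fun a ξ => smul_comm _ _ _
      bound := fun ξ => by
        rw [norm_smul]
        exact mul_le_mul_of_nonneg_right (f.norm_coe_le_norm x) (norm_nonneg _) }
  add f g ξ := by
    show (f + g) x • ξ = f x • ξ + g x • ξ
    rw [ContinuousMap.add_apply, add_smul]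
  smul a f ξ := by
    show (a • f) x • ξ = a • (f x • ξ)
    rw [ContinuousMap.smul_apply, smul_smul, smul_eq_mul]
  mul f g ξ := by
    show (f * g) x • ξ = f x • (g x • ξ)
    rw [ContinuousMap.mul_apply, mul_smul]
  one ξ := by
    show (1 : C(X, ℂ)) x • ξ = ξ
    rw [ContinuousMap.one_apply, one_smul]

theorem toReal_pos (p : ℝ≥0∞) [Fact (1 ≤ p)] (hp : p ≠ ∞) : 0 < p.toReal :=
  ENNReal.toReal_pos (lt_of_lt_of_le zero_lt_one (Fact.out : 1 ≤ p)).ne' hp

theorem orb (hN : StNrg) (p : ℝ≥0∞) [Fact (1 ≤ p)] (hp : p ≠ ∞) (X : Type) [TopologicalSpace X]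
    [CompactSpace X] (h : X ≃ₜ X) (g : FS X) : OrbLe p.toReal h g (nrm p h g) := by
  intro x ξ
  obtain ⟨ξ', hξ'⟩ : ∃ ξ' : ℤ →₀ LY p (rx p x).M, ∀ m, ξ' m = ξ m • (e1 p : LY p M1) :=
    ⟨ξ.mapRange (fun c => c • (e1 p : LY p M1)) (zero_smul ℂ _), fun m => Finsupp.mapRange_apply ..⟩
  have h1 := (hN p hp X h).1 g (rx p x) ξ'
  have ha : ∀ m : ℤ, ‖act p h (rx p x) g ξ' m‖ =
      ‖g.sum fun n f => f ((h ^ m : X ≃ₜ X) x) * ξ (m - n)‖ := by
    intro m
    have e2 : act p h (rx p x) g ξ' m =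
        (g.sum fun n f => f ((h ^ m : X ≃ₜ X) x) * ξ (m - n)) • (e1 p : LY p M1) := by
      unfold act Finsupp.sum
      rw [Finset.sum_smul]
      refine Finset.sum_congr rfl fun n _ => ?_
      have e3 : (cmp h m (g n)) x • (ξ (m - n) • (e1 p : LY p M1)) =
          ((cmp h m (g n)) x * ξ (m - n)) • (e1 p : LY p M1) := smul_smul _ _ _
      exact (congrArg (fun z : LY p M1 => (cmp h m (g n)) x • z) (hξ' (m - n))).trans e3
    rw [e2]
    show ‖(g.sum fun n f => f ((h ^ m : X ≃ₜ X) x) * ξ (m - n)) • (e1 p : LY p M1)‖ = _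
    rw [norm_smul, norm_e1 p hp, mul_one]
  have hb : ∀ m : ℤ, ‖ξ' m‖ = ‖ξ m‖ := by
    intro m
    rw [hξ']
    show ‖ξ m • (e1 p : LY p M1)‖ = _
    rw [norm_smul, norm_e1 p hp, mul_one]
  simp only [ha, hb] at h1
  exact h1

/-- MODULE NLX -/
theorem hNLX : StNlx := by
  intro hN p _ hp X _ _ h g
  refine ⟨orb hN p hp X h g, fun h0 => ?_⟩
  have hp0 := toReal_pos p hp
  apply Finsupp.ext
  intro m
  apply ContinuousMap.ext
  intro y
  obtain ⟨x, rfl⟩ := (h ^ m : X ≃ₜ X).surjective y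
  have h1 := orb hN p hp X h g x (Finsupp.single 0 1)
  rw [h0, Real.zero_rpow hp0.ne', zero_mul] at h1
  have hval : ∀ k : ℤ, (g.sum fun n f => f ((h ^ k : X ≃ₜ X) x) * (Finsupp.single (0 : ℤ) (1 : ℂ)) (k - n)) =
      g k ((h ^ k : X ≃ₜ X) x) := by
    intro k
    unfold Finsupp.sum
    rw [Finset.sum_eq_single k]
    · beta_reduce
      rw [sub_self, Finsupp.single_eq_same, mul_one]
    · intro n _ hn
      beta_reduce
      rw [Finsupp.single_eq_of_ne, mul_zero]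
      intro h3
      apply hn
      omega
    · intro hk
      rw [Finsupp.notMem_support_iff.1 hk]
      simp
  have hs : Summable fun k : ℤ => ‖g.sum fun n f => f ((h ^ k : X ≃ₜ X) x) *
      (Finsupp.single (0 : ℤ) (1 : ℂ)) (k - n)‖ ^ p.toReal := by
    refine summable_of_ne_finset_zero (s := g.support) fun k hk => ?_
    rw [hval, Finsupp.notMem_support_iff.1 hk]
    simp [Real.zero_rpow hp0.ne']
  have h2 := hs.le_tsum m fun _ _ => Real.rpow_nonneg (norm_nonneg _) _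
  rw [hval m] at h2
  have h3 : ‖g m ((h ^ m : X ≃ₜ X) x)‖ ^ p.toReal ≤ 0 := h2.trans h1
  have h4 : ‖g m ((h ^ m : X ≃ₜ X) x)‖ ^ p.toReal = 0 :=
    le_antisymm h3 (Real.rpow_nonneg (norm_nonneg _) _)
  have h5 := (Real.rpow_eq_zero (norm_nonneg _) hp0.ne').1 h4
  rw [norm_eq_zero.1 h5]
  rfl

end Pool.Agent.Helper64.XP
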